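import Pool.Agent.helper62.RP.Spec

/-!
# The bound for the killed walks (row rp:KBD)
-/

set_option autoImplicit false

open Pool.Agent.QU

namespace Pool.Agent.RP

/-- **Row KBD**. -/
theorem KBD (h1 : RNB_stmt) (h2 : OPB_stmt) : KBD_stmt := by
  classical
  intro a q s i
  have h0 : 0 ≤ regNorm a := (h1 F2 a a).1
  induction i with
  | zero =>
    intro S
    rw [pow_zero, one_pow]
    have e : ∑ x ∈ S, ‖kil a q s 0 x‖ ^ 2 = ∑ x ∈ S, if x = s then (1 : ℝ) else 0 := by
      refine Finset.sum_congr rfl fun x _ => ?_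
      unfold kil
      split_ifs
      · rw [norm_one, one_pow]
      · rw [norm_zero]
        norm_num
    rw [e, Finset.sum_ite_eq']
    split_ifs
    · exact le_refl _
    · exact zero_le_one
  | succ i ih =>
    intro S
    have h3 := (h2 F2 a).1 (kil a q s i) (regNorm a ^ i) (pow_nonneg h0 i) ih S
    rw [pow_succ' (regNorm a) i]
    refine le_trans (Finset.sum_le_sum fun x _ => ?_) h3
    have e : kil a q s (i + 1) x =
        if x.norm ≤ q then 0 else ∑ t ∈ a.coeff.support, a.coeff t * kil a q s i (x * t) := by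
      rw [kil]
    rw [e]
    split_ifs
    · rw [norm_zero]
      have h4 := sq_nonneg ‖(fun x => ∑ t ∈ a.coeff.support, a.coeff t * kil a q s i (x * t)) x‖
      have h5 : (0 : ℝ) ^ 2 = 0 := by norm_num
      rw [h5]
      exact h4
    · exact le_refl _

end Pool.Agent.RP
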