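import Pool.Agent.helper16.RP.RNB

/-!
# The operator bound for functions with bounded square sums (row rp:OPB)
-/

set_option autoImplicit false

open Pool.Agent.QU

namespace Pool.Agent.RP

section

variable {G : Type} [Group G]

theorem OPB_sq (u : MonoidAlgebra ℂ G) (S : Finset G) :
    ∑ x ∈ S, ‖u.coeff x‖ ^ 2 ≤ l2 u ^ 2 := by
  classical
  unfold l2
  rw [Real.sq_sqrt (Finset.sum_nonneg fun _ _ => sq_nonneg _)]
  have e : ∑ x ∈ S, ‖u.coeff x‖ ^ 2 = ∑ x ∈ S.filter (fun x => x ∈ u.coeff.support), ‖u.coeff x‖ ^ 2 := by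
    symm
    refine Finset.sum_subset (Finset.filter_subset _ _) fun x hx hx' => ?_
    have h1 : x ∉ u.coeff.support := fun h => hx' (Finset.mem_filter.mpr ⟨hx, h⟩)
    rw [Finsupp.notMem_support_iff] at h1
    rw [h1, norm_zero]
    norm_num
  rw [e]
  refine Finset.sum_le_sum_of_subset_of_nonneg (fun x hx => (Finset.mem_filter.mp hx).2)
    fun _ _ _ => sq_nonneg _

/-- the element with conjugate coefficients of `f` on `T` -/
noncomputable def OPB_res (f : G → ℂ) (T : Finset G) : MonoidAlgebra ℂ G :=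
  ∑ y ∈ T, MonoidAlgebra.single y (star (f y))

theorem OPB_res_coeff (f : G → ℂ) (T : Finset G) (x : G) (hx : x ∈ T) :
    (OPB_res f T).coeff x = star (f x) := by
  classical
  unfold OPB_res
  rw [MonoidAlgebra.coeff_sum, Finsupp.finset_sum_apply, Finset.sum_eq_single x]
  · rw [MonoidAlgebra.coeff_single, Finsupp.single_eq_same]
  · intro b _ hb
    rw [MonoidAlgebra.coeff_single, Finsupp.single_eq_of_ne hb.symm]
  · intro h
    exact absurd hx h

theorem OPB_res_coeff' (f : G → ℂ) (T : Finset G) (x : G) (hx : x ∉ T) :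
    (OPB_res f T).coeff x = 0 := by
  classical
  unfold OPB_res
  rw [MonoidAlgebra.coeff_sum, Finsupp.finset_sum_apply]
  refine Finset.sum_eq_zero fun b hb => ?_
  rw [MonoidAlgebra.coeff_single, Finsupp.single_eq_of_ne]
  rintro rfl
  exact hx hb

theorem OPB_res_l2 (f : G → ℂ) (T : Finset G) (c : ℝ) (hc : 0 ≤ c) (h : SqB f c) :
    l2 (OPB_res f T) ≤ c := by
  classical
  unfold l2
  refine Real.sqrt_le_iff.mpr ⟨hc, ?_⟩
  have hs : (OPB_res f T).coeff.support ⊆ T := by
    intro x hx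
    by_contra h0
    exact (Finsupp.mem_support_iff.mp hx) (OPB_res_coeff' f T x h0)
  refine le_trans (Finset.sum_le_sum_of_subset_of_nonneg hs fun _ _ _ => sq_nonneg _) ?_
  refine le_trans (le_of_eq ?_) (h T)
  refine Finset.sum_congr rfl fun x hx => ?_
  rw [OPB_res_coeff f T x hx, norm_star]

end

/-- **Row OPB**. -/
theorem OPB (h1 : RNB_stmt) (h2 : ADJ_stmt) : OPB_stmt := by
  classical
  intro G _ a
  refine ⟨?_, ?_⟩
  · intro f c hc hf S
    set T : Finset G := S.biUnion (fun x => a.coeff.support.image (fun t => x * t)) with hT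
    have e : ∀ x ∈ S, ‖(fun x => ∑ t ∈ a.coeff.support, a.coeff t * f (x * t)) x‖ ^ 2 =
        ‖(OPB_res f T * adj a).coeff x‖ ^ 2 := by
      intro x hx
      have e1 : (OPB_res f T * adj a).coeff x =
          star (∑ t ∈ a.coeff.support, a.coeff t * f (x * t)) := by
        unfold adj
        rw [Finset.mul_sum, MonoidAlgebra.coeff_sum, Finsupp.finset_sum_apply, star_sum]
        refine Finset.sum_congr rfl fun t ht => ?_
        rw [MonoidAlgebra.coeff_mul_single_apply, inv_inv, OPB_res_coeff, star_mul]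
        exact Finset.mem_biUnion.mpr ⟨x, hx, Finset.mem_image_of_mem _ ht⟩
      rw [e1, norm_star]
    rw [Finset.sum_congr rfl e]
    refine (OPB_sq _ S).trans ?_
    have h3 := (h2 G (adj a) a).2.2.2.2.2 (OPB_res f T)
    rw [(h2 G a a).2.2.2.1] at h3
    have h4 : l2 (OPB_res f T * adj a) ≤ regNorm a * c :=
      h3.trans (mul_le_mul_of_nonneg_left (OPB_res_l2 f T c hc hf) (h1 G a a).1)
    exact pow_le_pow_left₀ (RNB_l2_nonneg _) h4 2
  · intro p S
    refine (OPB_sq _ S).trans ?_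
    have h3 : l2 (a ^ p) ≤ regNorm (a ^ p) := (h1 G (a ^ p) a).2.2.2.2.1
    have h4 : regNorm (a ^ p) ≤ regNorm a ^ p := (h1 G a a).2.2.2.2.2.2.2.1 p
    exact pow_le_pow_left₀ (RNB_l2_nonneg _) (h3.trans h4) 2

end Pool.Agent.RP
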