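import Pool.Agent.helper62.RP.Spec

/-!
# Powers of `adj a * a` (row rp:PWR)
-/

set_option autoImplicit false

open Pool.Agent.QU

namespace Pool.Agent.RP

theorem PWR_adj (h2 : ADJ_stmt) (G : Type) [Group G] (b : MonoidAlgebra ℂ G) (hb : adj b = b)
    (j : ℕ) : adj (b ^ (2 ^ j)) = b ^ (2 ^ j) := by
  induction j with
  | zero => rw [pow_zero, pow_one, hb]
  | succ j ih =>
    have e : b ^ (2 ^ (j + 1)) = b ^ (2 ^ j) * b ^ (2 ^ j) := by
      rw [← pow_add]
      congr 1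
      rw [pow_succ]
      ring
    rw [e, (h2 G _ _).2.2.1, ih]

/-- **Row PWR**. -/
theorem PWR (h1 : RNB_stmt) (h2 : ADJ_stmt) : PWR_stmt := by
  intro G _ a j
  have hb : adj (adj a * a) = adj a * a := by
    rw [(h2 G _ _).2.2.1, (h2 G a a).2.1]
  have h0 : 0 ≤ regNorm a := (h1 G a a).1
  induction j with
  | zero =>
    rw [pow_zero, zero_add, pow_one, pow_one]
    exact (h2 G a a).2.2.2.2.1
  | succ j ih =>
    have e : (adj a * a) ^ (2 ^ (j + 1)) = (adj a * a) ^ (2 ^ j) * (adj a * a) ^ (2 ^ j) := by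
      rw [← pow_add]
      congr 1
      rw [pow_succ]
      ring
    have e2 : regNorm a ^ (2 ^ (j + 1 + 1)) = (regNorm a ^ (2 ^ (j + 1))) ^ 2 := by
      rw [← pow_mul]
      congr 1
    have h3 := (h2 G ((adj a * a) ^ (2 ^ j)) a).2.2.2.2.1
    rw [PWR_adj h2 G _ hb j] at h3
    rw [e, e2]
    exact (pow_le_pow_left₀ (pow_nonneg h0 _) ih 2).trans h3

end Pool.Agent.RP
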