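import Pool.Agent.helper62.RP.Spec
import Pool.Agent.helper59.QU.IpBasic

/-!
# Basic properties of `regNorm` and `l2` (row rp:RNB)
-/

set_option autoImplicit false

open Pool.Agent.QU

namespace Pool.Agent.RP

section

variable {G : Type} [Group G]

theorem RNB_l2_nonneg (u : MonoidAlgebra ℂ G) : 0 ≤ l2 u := Real.sqrt_nonneg _

/-- `l2` as a norm on a finite set which contains the support -/
theorem RNB_l2_eq (u : MonoidAlgebra ℂ G) (T : Finset G) (h : u.coeff.support ⊆ T) :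
    l2 u = ‖(WithLp.toLp 2 (fun γ : T => u.coeff γ) : EuclideanSpace ℂ T)‖ := by
  rw [EuclideanSpace.norm_eq]
  unfold l2
  congr 1
  have e1 : ∑ γ ∈ u.coeff.support, ‖u.coeff γ‖ ^ 2 = ∑ γ ∈ T, ‖u.coeff γ‖ ^ 2 := by
    apply Finset.sum_subset h
    intro x _ hx
    rw [Finsupp.notMem_support_iff] at hx
    rw [hx, norm_zero]
    norm_num
  rw [e1, ← Finset.sum_coe_sort]

theorem RNB_add (a b : MonoidAlgebra ℂ G) : l2 (a + b) ≤ l2 a + l2 b := by
  classical
  rw [RNB_l2_eq (a + b) (a.coeff.support ∪ b.coeff.support)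
      (by rw [MonoidAlgebra.coeff_add]; exact Finsupp.support_add),
    RNB_l2_eq a (a.coeff.support ∪ b.coeff.support) Finset.subset_union_left,
    RNB_l2_eq b (a.coeff.support ∪ b.coeff.support) Finset.subset_union_right]
  refine le_trans (le_of_eq ?_) (norm_add_le _ _)
  rfl

theorem RNB_smul_le (z : ℂ) (a : MonoidAlgebra ℂ G) : l2 (z • a) ≤ ‖z‖ * l2 a := by
  have hs : (z • a).coeff.support ⊆ a.coeff.support := by
    rw [MonoidAlgebra.coeff_smul]
    exact Finsupp.support_smul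
  rw [RNB_l2_eq (z • a) a.coeff.support hs, RNB_l2_eq a a.coeff.support (Finset.Subset.refl _),
    ← norm_smul]
  exact le_of_eq rfl

theorem RNB_zero : l2 (0 : MonoidAlgebra ℂ G) = 0 := by
  unfold l2
  rw [MonoidAlgebra.coeff_zero, Finsupp.support_zero, Finset.sum_empty, Real.sqrt_zero]

theorem RNB_sum {ι : Type} (s : Finset ι) (f : ι → MonoidAlgebra ℂ G) :
    l2 (∑ i ∈ s, f i) ≤ ∑ i ∈ s, l2 (f i) := by
  classical
  induction s using Finset.induction_on with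
  | empty => rw [Finset.sum_empty, Finset.sum_empty, RNB_zero]
  | insert a s ha ih =>
    rw [Finset.sum_insert ha, Finset.sum_insert ha]
    exact (RNB_add _ _).trans (by linarith)

theorem RNB_l1 (a u : MonoidAlgebra ℂ G) :
    l2 (a * u) ≤ (∑ γ ∈ a.coeff.support, ‖a.coeff γ‖) * l2 u := by
  rw [SCM_mul_expand, Finset.sum_mul]
  refine (RNB_sum _ _).trans (Finset.sum_le_sum fun γ _ => ?_)
  refine (RNB_smul_le _ _).trans (le_of_eq ?_)
  rw [SCM_l2_trans]

theorem RNB_l1_nonneg (a : MonoidAlgebra ℂ G) : 0 ≤ ∑ γ ∈ a.coeff.support, ‖a.coeff γ‖ :=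
  Finset.sum_nonneg fun _ _ => norm_nonneg _

theorem RNB_le_of (a : MonoidAlgebra ℂ G) (c : ℝ) (hc : 0 ≤ c)
    (h : ∀ u : MonoidAlgebra ℂ G, l2 (a * u) ≤ c * l2 u) : regNorm a ≤ c :=
  csInf_le ⟨0, fun _ hx => hx.1⟩ ⟨hc, h⟩

theorem RNB_nonneg (a : MonoidAlgebra ℂ G) : 0 ≤ regNorm a :=
  Real.sInf_nonneg fun _ hc => hc.1

theorem RNB_mul_le (a u : MonoidAlgebra ℂ G) : l2 (a * u) ≤ regNorm a * l2 u := by
  have hne : {c : ℝ | 0 ≤ c ∧ ∀ u : MonoidAlgebra ℂ G, l2 (a * u) ≤ c * l2 u}.Nonempty :=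
    ⟨_, RNB_l1_nonneg a, RNB_l1 a⟩
  rcases (RNB_l2_nonneg u).eq_or_lt with h0 | h0
  · have h1 := RNB_l1 a u
    rw [← h0, mul_zero] at h1
    rw [← h0, mul_zero]
    exact h1
  · rw [← div_le_iff₀ h0]
    refine le_csInf hne fun c hc => ?_
    rw [div_le_iff₀ h0]
    exact hc.2 u

theorem RNB_one : l2 (1 : MonoidAlgebra ℂ G) = 1 := by
  classical
  unfold l2
  rw [MonoidAlgebra.one_def, MonoidAlgebra.coeff_single,
    Finsupp.support_single_ne_zero _ one_ne_zero, Finset.sum_singleton, Finsupp.single_eq_same,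
    norm_one, one_pow, Real.sqrt_one]

theorem RNB_coeff (a : MonoidAlgebra ℂ G) (γ : G) : ‖a.coeff γ‖ ≤ l2 a := by
  by_cases h : γ ∈ a.coeff.support
  · unfold l2
    refine Real.le_sqrt_of_sq_le ?_
    exact Finset.single_le_sum (f := fun γ => ‖a.coeff γ‖ ^ 2) (fun _ _ => sq_nonneg _) h
  · rw [Finsupp.notMem_support_iff] at h
    rw [h, norm_zero]
    exact RNB_l2_nonneg a

theorem RNB_mul (a b : MonoidAlgebra ℂ G) : regNorm (a * b) ≤ regNorm a * regNorm b := by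
  refine RNB_le_of _ _ (mul_nonneg (RNB_nonneg a) (RNB_nonneg b)) fun u => ?_
  rw [mul_assoc, mul_assoc]
  exact (RNB_mul_le a (b * u)).trans (mul_le_mul_of_nonneg_left (RNB_mul_le b u) (RNB_nonneg a))

theorem RNB_pow (a : MonoidAlgebra ℂ G) (n : ℕ) : regNorm (a ^ n) ≤ regNorm a ^ n := by
  induction n with
  | zero =>
    rw [pow_zero, pow_zero]
    refine RNB_le_of _ _ zero_le_one fun u => ?_
    rw [one_mul, one_mul]
  | succ n ih =>
    rw [pow_succ, pow_succ]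
    exact (RNB_mul _ _).trans (mul_le_mul_of_nonneg_right ih (RNB_nonneg a))

end

/-- **Row RNB**. -/
theorem RNB : RNB_stmt := by
  intro G _ a b
  refine ⟨RNB_nonneg a, RNB_mul_le a, RNB_le_of a, RNB_le_of _ _ (RNB_l1_nonneg a) (RNB_l1 a), ?_,
    RNB_coeff a, RNB_mul a b, RNB_pow a, ?_, ?_, RNB_add a b⟩
  · have h := RNB_mul_le a 1
    rw [mul_one, RNB_one, mul_one] at h
    exact h
  · refine RNB_le_of _ _ (add_nonneg (RNB_nonneg a) (RNB_nonneg b)) fun u => ?_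
    rw [add_mul, add_mul]
    exact (RNB_add _ _).trans (add_le_add (RNB_mul_le a u) (RNB_mul_le b u))
  · intro z
    refine RNB_le_of _ _ (mul_nonneg (norm_nonneg z) (RNB_nonneg a)) fun u => ?_
    rw [smul_mul_assoc, mul_assoc]
    exact (RNB_smul_le _ _).trans (mul_le_mul_of_nonneg_left (RNB_mul_le a u) (norm_nonneg z))

end Pool.Agent.RP
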